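import Pool.Agent.H332.HT.Defs

/-! HT-CONE (for helper332): two basic feasible directions and the inward direction. -/

set_option autoImplicit false

namespace Pool.Agent.H350.HT

open Pool.Agent.H332.HT

theorem exists_sgn (K : Set V3) (hK : HB K) (r : V2) (ω ξ : ℝ) (hy : ((r, ω) : V3) ∈ K) :
    ∃ r' : V2, ((r', ω) : V3) ∈ K ∧ |ξ| • r' = ξ • r := by
  rcases le_total 0 ξ with h | h
  · exact ⟨r, hy, by rw [abs_of_nonneg h]⟩
  · exact ⟨-r, hK.symm r ω hy, by rw [abs_of_nonpos h, smul_neg, neg_smul, neg_neg]⟩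

theorem cone_aux (htc : S_TC) (K : Set V3) (hK : HB K) (p r v : V2) (ζ ω W α ξ c : ℝ)
    (hc : (((0 : V2), c) : V3) ∈ K)
    (hx : ((p, ζ) : V3) ∈ K) (hy : ((r, ω) : V3) ∈ K) (hW : 0 < W) (hξ : |ξ| ≤ α)
    (hv : W • v = -(α • p) + ξ • r) :
    ((v, (|ξ| * (ω - ζ) + (α - |ξ|) * (c - ζ)) / W) : V3) ∈ T K (p, ζ) := by
  obtain ⟨-, hsm, -, hadd, -, hsub, -⟩ := htc K hK (p, ζ) hx
  obtain ⟨r', hr', hrr⟩ := exists_sgn K hK r ω ξ hy
  have h1 : |ξ| • (((r', ω) : V3) - (p, ζ)) ∈ T K (p, ζ) := hsm _ (hsub _ hr') _ (abs_nonneg ξ)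
  have h2 : (α - |ξ|) • ((((0 : V2), c) : V3) - (p, ζ)) ∈ T K (p, ζ) :=
    hsm _ (hsub _ hc) _ (by linarith)
  have h3 := hsm _ (hadd _ h1 _ h2) W⁻¹ (by positivity)
  have e : ((v, (|ξ| * (ω - ζ) + (α - |ξ|) * (c - ζ)) / W) : V3) =
      W⁻¹ • (|ξ| • (((r', ω) : V3) - (p, ζ)) + (α - |ξ|) • ((((0 : V2), c) : V3) - (p, ζ))) := by
    apply Prod.ext
    · show v = W⁻¹ • (|ξ| • (r' - p) + (α - |ξ|) • ((0 : V2) - p))
      have : |ξ| • (r' - p) + (α - |ξ|) • ((0 : V2) - p) = W • v := by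
        rw [hv, smul_sub, hrr, zero_sub, smul_neg, sub_smul]
        abel
      rw [this, smul_smul, inv_mul_cancel₀ hW.ne', one_smul]
    · show (|ξ| * (ω - ζ) + (α - |ξ|) * (c - ζ)) / W =
        W⁻¹ * (|ξ| * (ω - ζ) + (α - |ξ|) * (c - ζ))
      rw [div_eq_inv_mul]
  rw [e]
  exact h3

theorem cone (htc : S_TC) : S_cone := by
  intro K hK p r v ζ ω W α ξ hx hy hW hξ hv
  constructor
  · have h := cone_aux htc K hK p r v ζ ω W α ξ 1 hK.N hx hy hW hξ hv
    have e : (α * (1 - ζ) - |ξ| * (1 - ω)) / W =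
        (|ξ| * (ω - ζ) + (α - |ξ|) * (1 - ζ)) / W := by
      rw [show α * (1 - ζ) - |ξ| * (1 - ω) = |ξ| * (ω - ζ) + (α - |ξ|) * (1 - ζ) by ring]
    rw [e]
    exact h
  · have h := cone_aux htc K hK p r v ζ ω W α ξ (-1) hK.S hx hy hW hξ hv
    have e : (-(α * (1 + ζ)) + |ξ| * (1 + ω)) / W =
        (|ξ| * (ω - ζ) + (α - |ξ|) * (-1 - ζ)) / W := by
      rw [show -(α * (1 + ζ)) + |ξ| * (1 + ω) = |ξ| * (ω - ζ) + (α - |ξ|) * (-1 - ζ) by ring]
    rw [e]
    exact h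

theorem smul_mem_IP (hP : S_P) (K : Set V3) (hK : HB K) (p : V2) (hp : p ∈ IP K) (s : ℝ)
    (hs : |s| ≤ 1) : s • p ∈ IP K := by
  obtain ⟨-, -, -, h0, hneg, hsub, hst⟩ := hP K hK
  have key : ∀ t : ℝ, 0 ≤ t → t ≤ 1 → ∀ q ∈ IP K, t • q ∈ IP K := by
    intro t h0t ht1 q hq
    rcases h0t.eq_or_lt with h | h
    · rw [← h, zero_smul]
      exact h0
    · have h1 := hst q hq 0 (hsub 0 h0) t h ht1
      rw [smul_zero, add_zero] at h1
      exact h1
  rcases le_total 0 s with h | h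
  · exact key s h (le_trans (le_abs_self s) hs) p hp
  · have h1 := key (-s) (by linarith) (le_trans (neg_le_abs s) hs) (-p) (hneg p hp)
    rw [smul_neg, neg_smul, neg_neg] at h1
    exact h1

theorem inw (hP : S_P) (hf : S_fib) : S_inw := by
  intro K hK a b p z hD hab hpz hp0 hap hpb habs
  have hD' := hD.ne'
  set D := det a b with hDdef
  set L := det p b / D with hL
  set M := det a p / D with hM
  have hL0 : 0 ≤ L := div_nonneg hpb hD.le
  have hM0 : 0 ≤ M := div_nonneg hap hD.le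
  have hpe : p = L • a + M • b := by
    apply Prod.ext
    · show p.1 = L * a.1 + M * b.1
      rw [hL, hM]
      field_simp
      rw [hDdef]
      simp only [det]
      ring
    · show p.2 = L * a.2 + M * b.2
      rw [hL, hM]
      field_simp
      rw [hDdef]
      simp only [det]
      ring
  have htau : 0 < (L + M) / 2 := by
    rcases (add_nonneg hL0 hM0).eq_or_lt with h | h
    · exfalso
      apply hp0
      have h1 : L = 0 := by linarith
      have h2 : M = 0 := by linarith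
      rw [hpe, h1, h2, zero_smul, zero_smul, add_zero]
    · linarith
  have hLM : |L - M| ≤ 1 := by
    have : L - M = -((det a p - det p b) / D) := by
      rw [hL, hM]
      ring
    rw [this, abs_neg, abs_div, abs_of_pos hD, div_le_one hD]
    exact habs
  have hin : (L - M) • ((1 / 2 : ℝ) • (a - b)) ∈ IP K := smul_mem_IP hP K hK _ hab _ hLM
  obtain ⟨z', hz'⟩ := (hf K hK).1 _ hin
  refine ⟨(z' - z) / ((L + M) / 2), (L + M) / 2, htau, ?_⟩
  have e : ((p, z) : V3) + ((L + M) / 2) • ((-(a + b), (z' - z) / ((L + M) / 2)) : V3) =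
      ((L - M) • ((1 / 2 : ℝ) • (a - b)), z') := by
    apply Prod.ext
    · show p + ((L + M) / 2) • (-(a + b)) = (L - M) • ((1 / 2 : ℝ) • (a - b))
      apply Prod.ext
      · have h1 : p.1 = L * a.1 + M * b.1 := congrArg Prod.fst hpe
        show p.1 + ((L + M) / 2) * (-(a.1 + b.1)) = (L - M) * ((1 / 2 : ℝ) * (a.1 - b.1))
        rw [h1]
        ring
      · have h1 : p.2 = L * a.2 + M * b.2 := congrArg Prod.snd hpe
        show p.2 + ((L + M) / 2) * (-(a.2 + b.2)) = (L - M) * ((1 / 2 : ℝ) * (a.2 - b.2))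
        rw [h1]
        ring
    · show z + ((L + M) / 2) * ((z' - z) / ((L + M) / 2)) = z'
      rw [mul_div_cancel₀ _ htau.ne']
      ring
  rw [e]
  exact hz'

end Pool.Agent.H350.HT
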